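import Pool.Agent.Helper25_CON.PDLem

/-!
Squad CON, module E_CAP: components which are not capable have rank at most 4.
-/

noncomputable section

namespace Pool.Agent.CON.H88

open Pool.Agent.CON Pool.Agent.H25Cong

variable {M : Type} [AddCommGroup M] {b : M → M → ℤ} {C : Set M} {s : ℤ}

lemma neg_mem (hC : Irr b C s) {a : M} (ha : a ∈ C) : -a ∈ C := by
  have h := hC.refl a ha a ha 2 (by rw [hC.norm a ha])
  have e : a - (2 : ℤ) • a = -a := by
    rw [two_zsmul]; abel
  rwa [e] at h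

lemma sub_mem (hC : Irr b C s) {a c : M} (ha : a ∈ C) (hc : c ∈ C) (h : b a c = s) :
    c - a ∈ C := by
  have h := hC.refl a ha c hc 1 (by rw [h]; ring)
  rwa [one_zsmul] at h

lemma add_mem (hC : Irr b C s) {a c : M} (ha : a ∈ C) (hc : c ∈ C) (h : b a c = -s) :
    c + a ∈ C := by
  have h := hC.refl a ha c hc (-1) (by rw [h]; ring)
  have e : c - (-1 : ℤ) • a = c + a := by
    rw [neg_smul, one_zsmul, sub_neg_eq_add]
  rwa [e] at h

lemma eq_of_two (hb : PD b) (hC : Irr b C s) {a c : M} (ha : a ∈ C) (hc : c ∈ C)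
    (h : b a c = 2 * s) : a = c := by
  have : a - c = 0 := by
    apply hb.eq_zero
    rw [hb.sub_left, hb.sub_right, hb.sub_right, hb.symm c a, h, hC.norm a ha, hC.norm c hc]
    linarith
  exact sub_eq_zero.mp this

lemma eq_neg_of_two (hb : PD b) (hC : Irr b C s) {a c : M} (ha : a ∈ C) (hc : c ∈ C)
    (h : b a c = -(2 * s)) : a = -c := by
  apply eq_of_two hb hC ha (neg_mem hC hc)
  rw [hb.neg_right, h]; ring

/-- the possible products -/
lemma prod5 (hb : PD b) (hC : Irr b C s) {a c : M} (ha : a ∈ C) (hc : c ∈ C) :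
    b a c = 0 ∨ b a c = s ∨ b a c = -s ∨ b a c = 2 * s ∨ b a c = -(2 * s) := by
  obtain ⟨k, hk⟩ := hC.dvd a ha c hc
  have h := hb.cs a c
  rw [hC.norm a ha, hC.norm c hc, hk] at h
  have hs := hC.pos
  have h2 : k ^ 2 ≤ 4 := by
    have : s ^ 2 * k ^ 2 ≤ s ^ 2 * 4 := by nlinarith
    exact le_of_mul_le_mul_left this (by positivity)
  have h3 : k ≤ 2 := by nlinarith
  have h4 : -2 ≤ k := by nlinarith
  rw [hk]
  interval_cases k
  · right; right; right; right; ring
  · right; right; left; ring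
  · left; ring
  · right; left; ring
  · right; right; right; left; ring

/-- the parity of a product -/
lemma odd_cases (hb : PD b) (hC : Irr b C s) {a c : M} (ha : a ∈ C) (hc : c ∈ C)
    (h : ¬ (2 : ℤ) ∣ b a c) : b a c = s ∨ b a c = -s := by
  rcases prod5 hb hC ha hc with h1 | h1 | h1 | h1 | h1
  · exact absurd (by rw [h1]; exact dvd_zero _) h
  · exact Or.inl h1
  · exact Or.inr h1
  · exact absurd (by rw [h1]; exact dvd_mul_right _ _) h
  · exact absurd (by rw [h1]; exact (dvd_neg).mpr (dvd_mul_right _ _)) h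

lemma even_cases (hb : PD b) (hC : Irr b C s) (hs : ¬ (2 : ℤ) ∣ s) {a c : M} (ha : a ∈ C)
    (hc : c ∈ C) (h : (2 : ℤ) ∣ b a c) : b a c = 0 ∨ a = c ∨ a = -c := by
  rcases prod5 hb hC ha hc with h1 | h1 | h1 | h1 | h1
  · exact Or.inl h1
  · exact absurd (by rwa [h1] at h) hs
  · exact absurd (by rw [h1] at h; exact (dvd_neg).mp h) hs
  · exact Or.inr (Or.inl (eq_of_two hb hC ha hc h1))
  · exact Or.inr (Or.inr (eq_neg_of_two hb hC ha hc h1))

/-- orthogonal roots are congruent -/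
lemma cong (hb : PD b) (hC : Irr b C s) (hcap : ¬ Cap b C) {a c : M} (ha : a ∈ C) (hc : c ∈ C)
    (h : b a c = 0) {y : M} (hy : y ∈ C) : (2 : ℤ) ∣ b a y + b c y := by
  by_contra h0
  apply hcap
  refine ⟨a + c, AddSubgroup.add_mem _ (AddSubgroup.subset_closure ha)
    (AddSubgroup.subset_closure hc), ?_, y, AddSubgroup.subset_closure hy, ?_⟩
  · rw [hb.add_left, hb.add_right, hb.add_right, hb.symm c a, h, hC.norm a ha, hC.norm c hc]
    exact ⟨s, by ring⟩
  · rwa [hb.add_left]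

lemma cong_iff (hb : PD b) (hC : Irr b C s) (hcap : ¬ Cap b C) {a c : M} (ha : a ∈ C)
    (hc : c ∈ C) (h : b a c = 0) {y : M} (hy : y ∈ C) : (2 : ℤ) ∣ b a y ↔ (2 : ℤ) ∣ b c y := by
  have := cong hb hC hcap ha hc h hy
  omega

/-- three orthogonal roots: everything is in the span of four vectors -/
lemma span4 (hb : PD b) (hC : Irr b C s) (hs : ¬ (2 : ℤ) ∣ s) (hcap : ¬ Cap b C)
    {a1 a2 a3 g : M} (h1 : a1 ∈ C) (h2 : a2 ∈ C) (h3 : a3 ∈ C) (hg : g ∈ C)
    (h12 : b a1 a2 = 0) (h13 : b a1 a3 = 0) (h23 : b a2 a3 = 0) (hg1 : b g a1 = s)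
    (hg2 : b g a2 = s) (hg3 : b g a3 = s) {c : M} (hc : c ∈ C) :
    ∃ k1 k2 k3 k4 : ℤ, c = k1 • a1 + k2 • a2 + k3 • a3 + k4 • g := by
  have n1 := hC.norm a1 h1
  have n2 := hC.norm a2 h2
  have n3 := hC.norm a3 h3
  have ng := hC.norm g hg
  have nc := hC.norm c hc
  have hsp := hC.pos
  -- the fourth root
  have m1 : g - a1 ∈ C := sub_mem hC h1 hg (by rw [hb.symm]; exact hg1)
  have m2 : g - a1 - a2 ∈ C := sub_mem hC h2 m1
    (by rw [hb.sub_right, hb.symm a2 g, hb.symm a2 a1, hg2, h12]; ring)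
  have m3 : g - a1 - a2 - a3 ∈ C := sub_mem hC h3 m2
    (by rw [hb.sub_right, hb.sub_right, hb.symm a3 g, hb.symm a3 a1, hb.symm a3 a2, hg3, h13,
      h23]; ring)
  have m4 : (g - a1 - a2 - a3) + g ∈ C := add_mem hC hg m3
    (by rw [hb.sub_right, hb.sub_right, hb.sub_right, hg1, hg2, hg3, ng]; ring)
  set a4 := (g - a1 - a2 - a3) + g with ha4
  have e4 : ∀ y, b a4 y = 2 * b g y - b a1 y - b a2 y - b a3 y := by
    intro y
    rw [ha4, hb.add_left, hb.sub_left, hb.sub_left, hb.sub_left]; ring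
  have e41 : b a4 a1 = 0 := by
    rw [e4, hg1, n1, hb.symm a2 a1, hb.symm a3 a1, h12, h13]; ring
  have e42 : b a4 a2 = 0 := by
    rw [e4, hg2, n2, hb.symm a3 a2, h12, h23]; ring
  have e43 : b a4 a3 = 0 := by
    rw [e4, hg3, n3, h13, h23]; ring
  have e4g : b a4 g = s := by
    rw [e4, ng, hb.symm a1 g, hb.symm a2 g, hb.symm a3 g, hg1, hg2, hg3]; ring
  by_cases ho : (2 : ℤ) ∣ b a1 c
  · -- even products
    have p2 : (2 : ℤ) ∣ b a2 c := (cong_iff hb hC hcap h1 h2 h12 hc).mp ho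
    have p3 : (2 : ℤ) ∣ b a3 c := (cong_iff hb hC hcap h1 h3 h13 hc).mp ho
    have p4 : (2 : ℤ) ∣ b a4 c := (cong_iff hb hC hcap m4 h1 e41 hc).mpr ho
    rcases even_cases hb hC hs h1 hc ho with q1 | q1 | q1
    swap
    · exact ⟨1, 0, 0, 0, by rw [← q1]; simp⟩
    swap
    · exact ⟨-1, 0, 0, 0, by rw [q1]; simp⟩
    rcases even_cases hb hC hs h2 hc p2 with q2 | q2 | q2
    swap
    · exact ⟨0, 1, 0, 0, by rw [← q2]; simp⟩
    swap
    · exact ⟨0, -1, 0, 0, by rw [q2]; simp⟩
    rcases even_cases hb hC hs h3 hc p3 with q3 | q3 | q3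
    swap
    · exact ⟨0, 0, 1, 0, by rw [← q3]; simp⟩
    swap
    · exact ⟨0, 0, -1, 0, by rw [q3]; simp⟩
    have e4' : a4 = (-1 : ℤ) • a1 + (-1 : ℤ) • a2 + (-1 : ℤ) • a3 + (2 : ℤ) • g := by
      rw [ha4]; simp only [neg_smul, one_zsmul, two_zsmul]; abel
    rcases even_cases hb hC hs m4 hc p4 with q4 | q4 | q4
    swap
    · exact ⟨-1, -1, -1, 2, by rw [← q4, e4']⟩
    swap
    · refine ⟨1, 1, 1, -2, ?_⟩
      have : c = - a4 := by rw [q4, neg_neg]
      rw [this, e4']
      simp only [neg_smul, one_zsmul, two_zsmul]; abel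
    exfalso
    have q5 := e4 c
    rw [q4, q1, q2, q3] at q5
    have q6 : b g c = 0 := by omega
    have r1 := cong hb hC hcap hg hc q6 hg
    have r2 := cong hb hC hcap h1 hc q1 hg
    rw [ng] at r1
    rw [hb.symm a1 g, hg1] at r2
    omega
  · -- odd products
    have p2 : ¬ (2 : ℤ) ∣ b a2 c := fun h => ho ((cong_iff hb hC hcap h1 h2 h12 hc).mpr h)
    have p3 : ¬ (2 : ℤ) ∣ b a3 c := fun h => ho ((cong_iff hb hC hcap h1 h3 h13 hc).mpr h)
    have p4 : ¬ (2 : ℤ) ∣ b a4 c := fun h => ho ((cong_iff hb hC hcap m4 h1 e41 hc).mp h)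
    have key : ∀ t1 t2 t3 t4 : ℤ, t1 ^ 2 = 1 → t2 ^ 2 = 1 → t3 ^ 2 = 1 → t4 ^ 2 = 1 →
        b a1 c = t1 * s → b a2 c = t2 * s → b a3 c = t3 * s → b a4 c = t4 * s →
        (2 : ℤ) • c = t1 • a1 + t2 • a2 + t3 • a3 + t4 • a4 := by
      intro t1 t2 t3 t4 u1 u2 u3 u4 v1 v2 v3 v4
      have hv : (2 : ℤ) • c - (t1 • a1 + t2 • a2 + t3 • a3 + t4 • a4) = 0 := by
        apply hb.eq_zero
        have e21 : b a2 a1 = 0 := by rw [hb.symm]; exact h12
        have e31 : b a3 a1 = 0 := by rw [hb.symm]; exact h13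
        have e32 : b a3 a2 = 0 := by rw [hb.symm]; exact h23
        have e14 : b a1 a4 = 0 := by rw [hb.symm]; exact e41
        have e24 : b a2 a4 = 0 := by rw [hb.symm]; exact e42
        have e34 : b a3 a4 = 0 := by rw [hb.symm]; exact e43
        have w1 : b c a1 = t1 * s := by rw [hb.symm]; exact v1
        have w2 : b c a2 = t2 * s := by rw [hb.symm]; exact v2
        have w3 : b c a3 = t3 * s := by rw [hb.symm]; exact v3
        have w4 : b c a4 = t4 * s := by rw [hb.symm]; exact v4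
        have n4 := hC.norm a4 m4
        have : b ((2 : ℤ) • c - (t1 • a1 + t2 • a2 + t3 • a3 + t4 • a4))
            ((2 : ℤ) • c - (t1 • a1 + t2 • a2 + t3 • a3 + t4 • a4)) =
            8 * s - 2 * s * (t1 ^ 2 + t2 ^ 2 + t3 ^ 2 + t4 ^ 2) := by
          simp only [hb.sub_left, hb.sub_right, hb.add_left, hb.add_right, hb.zsmul_left,
            hb.zsmul_right, nc, n1, n2, n3, n4, v1, v2, v3, v4, w1, w2, w3, w4, h12, h13, h23,
            e21, e31, e32, e14, e24, e34, e41, e42, e43]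
          ring
        rw [this, u1, u2, u3, u4]
        linarith
      exact sub_eq_zero.mp hv
    have fin : ∀ t1 t2 t3 t4 k1 k2 k3 : ℤ,
        (2 : ℤ) • c = t1 • a1 + t2 • a2 + t3 • a3 + t4 • a4 → t1 - t4 = 2 * k1 →
        t2 - t4 = 2 * k2 → t3 - t4 = 2 * k3 →
        c = k1 • a1 + k2 • a2 + k3 • a3 + t4 • g := by
      intro t1 t2 t3 t4 k1 k2 k3 h u1 u2 u3
      have h0 : (2 : ℤ) • (c - (k1 • a1 + k2 • a2 + k3 • a3 + t4 • g)) = 0 := by
        rw [smul_sub, h]
        have v1 : t1 = t4 + 2 * k1 := by linarith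
        have v2 : t2 = t4 + 2 * k2 := by linarith
        have v3 : t3 = t4 + 2 * k3 := by linarith
        rw [v1, v2, v3, ha4]
        simp only [smul_add, smul_sub, add_smul, mul_smul, two_zsmul]
        abel
      exact sub_eq_zero.mp (hb.zsmul_eq_zero (by norm_num) h0)
    rcases odd_cases hb hC h1 hc ho with v1 | v1 <;>
    rcases odd_cases hb hC h2 hc p2 with v2 | v2 <;>
    rcases odd_cases hb hC h3 hc p3 with v3 | v3 <;>
    rcases odd_cases hb hC m4 hc p4 with v4 | v4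
    · exact ⟨0, 0, 0, 1, fin 1 1 1 1 0 0 0 (key 1 1 1 1 (by norm_num) (by norm_num)
        (by norm_num) (by norm_num) (by linarith) (by linarith) (by linarith) (by linarith))
        (by norm_num) (by norm_num) (by norm_num)⟩
    · exact ⟨1, 1, 1, -1, fin 1 1 1 (-1) 1 1 1 (key 1 1 1 (-1) (by norm_num) (by norm_num)
        (by norm_num) (by norm_num) (by linarith) (by linarith) (by linarith) (by linarith))
        (by norm_num) (by norm_num) (by norm_num)⟩
    · exact ⟨0, 0, -1, 1, fin 1 1 (-1) 1 0 0 (-1) (key 1 1 (-1) 1 (by norm_num) (by norm_num)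
        (by norm_num) (by norm_num) (by linarith) (by linarith) (by linarith) (by linarith))
        (by norm_num) (by norm_num) (by norm_num)⟩
    · exact ⟨1, 1, 0, -1, fin 1 1 (-1) (-1) 1 1 0 (key 1 1 (-1) (-1) (by norm_num) (by norm_num)
        (by norm_num) (by norm_num) (by linarith) (by linarith) (by linarith) (by linarith))
        (by norm_num) (by norm_num) (by norm_num)⟩
    · exact ⟨0, -1, 0, 1, fin 1 (-1) 1 1 0 (-1) 0 (key 1 (-1) 1 1 (by norm_num) (by norm_num)
        (by norm_num) (by norm_num) (by linarith) (by linarith) (by linarith) (by linarith))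
        (by norm_num) (by norm_num) (by norm_num)⟩
    · exact ⟨1, 0, 1, -1, fin 1 (-1) 1 (-1) 1 0 1 (key 1 (-1) 1 (-1) (by norm_num) (by norm_num)
        (by norm_num) (by norm_num) (by linarith) (by linarith) (by linarith) (by linarith))
        (by norm_num) (by norm_num) (by norm_num)⟩
    · exact ⟨0, -1, -1, 1, fin 1 (-1) (-1) 1 0 (-1) (-1) (key 1 (-1) (-1) 1 (by norm_num)
        (by norm_num) (by norm_num) (by norm_num) (by linarith) (by linarith) (by linarith)
        (by linarith)) (by norm_num) (by norm_num) (by norm_num)⟩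
    · exact ⟨1, 0, 0, -1, fin 1 (-1) (-1) (-1) 1 0 0 (key 1 (-1) (-1) (-1) (by norm_num)
        (by norm_num) (by norm_num) (by norm_num) (by linarith) (by linarith) (by linarith)
        (by linarith)) (by norm_num) (by norm_num) (by norm_num)⟩
    · exact ⟨-1, 0, 0, 1, fin (-1) 1 1 1 (-1) 0 0 (key (-1) 1 1 1 (by norm_num) (by norm_num)
        (by norm_num) (by norm_num) (by linarith) (by linarith) (by linarith) (by linarith))
        (by norm_num) (by norm_num) (by norm_num)⟩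
    · exact ⟨0, 1, 1, -1, fin (-1) 1 1 (-1) 0 1 1 (key (-1) 1 1 (-1) (by norm_num) (by norm_num)
        (by norm_num) (by norm_num) (by linarith) (by linarith) (by linarith) (by linarith))
        (by norm_num) (by norm_num) (by norm_num)⟩
    · exact ⟨-1, 0, -1, 1, fin (-1) 1 (-1) 1 (-1) 0 (-1) (key (-1) 1 (-1) 1 (by norm_num)
        (by norm_num) (by norm_num) (by norm_num) (by linarith) (by linarith) (by linarith)
        (by linarith)) (by norm_num) (by norm_num) (by norm_num)⟩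
    · exact ⟨0, 1, 0, -1, fin (-1) 1 (-1) (-1) 0 1 0 (key (-1) 1 (-1) (-1) (by norm_num)
        (by norm_num) (by norm_num) (by norm_num) (by linarith) (by linarith) (by linarith)
        (by linarith)) (by norm_num) (by norm_num) (by norm_num)⟩
    · exact ⟨-1, -1, 0, 1, fin (-1) (-1) 1 1 (-1) (-1) 0 (key (-1) (-1) 1 1 (by norm_num)
        (by norm_num) (by norm_num) (by norm_num) (by linarith) (by linarith) (by linarith)
        (by linarith)) (by norm_num) (by norm_num) (by norm_num)⟩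
    · exact ⟨0, 0, 1, -1, fin (-1) (-1) 1 (-1) 0 0 1 (key (-1) (-1) 1 (-1) (by norm_num)
        (by norm_num) (by norm_num) (by norm_num) (by linarith) (by linarith) (by linarith)
        (by linarith)) (by norm_num) (by norm_num) (by norm_num)⟩
    · exact ⟨-1, -1, -1, 1, fin (-1) (-1) (-1) 1 (-1) (-1) (-1) (key (-1) (-1) (-1) 1
        (by norm_num) (by norm_num) (by norm_num) (by norm_num) (by linarith) (by linarith)
        (by linarith) (by linarith)) (by norm_num) (by norm_num) (by norm_num)⟩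
    · exact ⟨0, 0, 0, -1, fin (-1) (-1) (-1) (-1) 0 0 0 (key (-1) (-1) (-1) (-1) (by norm_num)
        (by norm_num) (by norm_num) (by norm_num) (by linarith) (by linarith) (by linarith)
        (by linarith)) (by norm_num) (by norm_num) (by norm_num)⟩

/-- the sign of a root -/
lemma sign (hb : PD b) (hC : Irr b C s) {a g : M} (ha : a ∈ C) (hg : g ∈ C)
    (h : ¬ (2 : ℤ) ∣ b g a) : ∃ a' ∈ C, (a' = a ∨ a' = -a) ∧ b g a' = s := by
  rcases odd_cases hb hC hg ha h with h1 | h1
  · exact ⟨a, ha, Or.inl rfl, h1⟩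
  · exact ⟨-a, neg_mem hC ha, Or.inr rfl, by rw [hb.neg_right, h1, neg_neg]⟩

/-- a root with odd product -/
lemma ex_odd (hb : PD b) (hC : Irr b C s) (hs : ¬ (2 : ℤ) ∣ s) (hr : Rk C 2) {a : M}
    (ha : a ∈ C) : ∃ g ∈ C, ¬ (2 : ℤ) ∣ b g a := by
  by_contra h0
  push Not at h0
  have hD : ({a, -a} : Set M) = C := by
    apply hC.conn
    · rintro x (rfl | rfl)
      · exact ha
      · exact neg_mem hC ha
    · exact ⟨a, Or.inl rfl⟩
    · rintro x (rfl | rfl) y hy hxy
      · rcases even_cases hb hC hs hy ha (h0 y hy) with h1 | h1 | h1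
        · rw [hb.symm]; exact h1
        · exact absurd (Or.inl h1) hxy
        · exact absurd (Or.inr h1) hxy
      · rcases even_cases hb hC hs hy ha (h0 y hy) with h1 | h1 | h1
        · rw [hb.symm, hb.neg_right, h1, neg_zero]
        · exact absurd (Or.inl h1) hxy
        · exact absurd (Or.inr h1) hxy
  obtain ⟨c, hc, hl⟩ := hr
  have h1 : ∀ i, c i = a ∨ c i = -a := by
    intro i
    have := hc i
    rw [← hD] at this
    exact this
  have h2 := Fintype.linearIndependent_iff.mp hl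
  rcases h1 0 with e0 | e0 <;> rcases h1 1 with e1 | e1
  · have := h2 ![1, -1] (by simp [Fin.sum_univ_two, e0, e1]) 0
    simp at this
  · have := h2 ![1, 1] (by simp [Fin.sum_univ_two, e0, e1]) 0
    simp at this
  · have := h2 ![1, 1] (by simp [Fin.sum_univ_two, e0, e1]) 0
    simp at this
  · have := h2 ![1, -1] (by simp [Fin.sum_univ_two, e0, e1]) 0
    simp at this

lemma not_rk_of_span {w1 w2 w3 w4 : M}
    (h : ∀ c ∈ C, ∃ k1 k2 k3 k4 : ℤ, c = k1 • w1 + k2 • w2 + k3 • w3 + k4 • w4) : ¬ Rk C 5 := by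
  rintro ⟨c, hc, hl⟩
  classical
  have h1 : Set.range c ≤ Submodule.span ℤ (({w1, w2, w3, w4} : Finset M) : Set M) := by
    rintro _ ⟨i, rfl⟩
    obtain ⟨k1, k2, k3, k4, e⟩ := h (c i) (hc i)
    have m1 : w1 ∈ Submodule.span ℤ (({w1, w2, w3, w4} : Finset M) : Set M) :=
      Submodule.subset_span (by simp)
    have m2 : w2 ∈ Submodule.span ℤ (({w1, w2, w3, w4} : Finset M) : Set M) :=
      Submodule.subset_span (by simp)
    have m3 : w3 ∈ Submodule.span ℤ (({w1, w2, w3, w4} : Finset M) : Set M) :=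
      Submodule.subset_span (by simp)
    have m4 : w4 ∈ Submodule.span ℤ (({w1, w2, w3, w4} : Finset M) : Set M) :=
      Submodule.subset_span (by simp)
    change c i ∈ _
    rw [e]
    exact Submodule.add_mem _ (Submodule.add_mem _ (Submodule.add_mem _
      (Submodule.smul_mem _ _ m1) (Submodule.smul_mem _ _ m2)) (Submodule.smul_mem _ _ m3))
      (Submodule.smul_mem _ _ m4)
  have h2 := linearIndependent_le_span' c hl _ h1
  have h3 : (({w1, w2, w3, w4} : Finset M)).card ≤ 4 := Finset.card_le_four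
  simp only [Cardinal.mk_fintype, Fintype.card_fin, Fintype.card_coe, Finset.coe_sort_coe] at h2
  have h4 : (5 : ℕ) ≤ (({w1, w2, w3, w4} : Finset M)).card := by exact_mod_cast h2
  omega

/-- an orthogonal pair but no orthogonal triple -/
lemma span3 (hb : PD b) (hC : Irr b C s) (hs : ¬ (2 : ℤ) ∣ s) (hcap : ¬ Cap b C)
    (htr : ∀ x ∈ C, ∀ y ∈ C, ∀ z ∈ C, b x y = 0 → b x z = 0 → b y z = 0 → False)
    {a1 a2 g : M} (h1 : a1 ∈ C) (h2 : a2 ∈ C) (hg : g ∈ C)
    (h12 : b a1 a2 = 0) (hg1 : b g a1 = s) (hg2 : b g a2 = s) {c : M} (hc : c ∈ C) :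
    ∃ k1 k2 k3 : ℤ, c = k1 • a1 + k2 • a2 + k3 • g := by
  have hsp := hC.pos
  have n1 := hC.norm a1 h1
  have n2 := hC.norm a2 h2
  have ng := hC.norm g hg
  have m1 : g - a1 ∈ C := sub_mem hC h1 hg (by rw [hb.symm]; exact hg1)
  have m2 : g - a1 - a2 ∈ C := sub_mem hC h2 m1
    (by rw [hb.sub_right, hb.symm a2 g, hb.symm a2 a1, hg2, h12]; ring)
  by_cases ho : (2 : ℤ) ∣ b a1 c
  · have p2 : (2 : ℤ) ∣ b a2 c := (cong_iff hb hC hcap h1 h2 h12 hc).mp ho
    rcases even_cases hb hC hs h1 hc ho with q1 | q1 | q1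
    swap
    · exact ⟨1, 0, 0, by rw [← q1]; simp⟩
    swap
    · exact ⟨-1, 0, 0, by rw [q1]; simp⟩
    rcases even_cases hb hC hs h2 hc p2 with q2 | q2 | q2
    swap
    · exact ⟨0, 1, 0, by rw [← q2]; simp⟩
    swap
    · exact ⟨0, -1, 0, by rw [q2]; simp⟩
    exact absurd (htr a1 h1 a2 h2 c hc h12 q1 q2) id
  · -- reduce to the case of products s, s
    have p2 : ¬ (2 : ℤ) ∣ b a2 c := fun h => ho ((cong_iff hb hC hcap h1 h2 h12 hc).mpr h)
    have main : ∀ c ∈ C, b a1 c = s → b a2 c = s → ∃ k1 k2 k3 : ℤ,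
        c = k1 • a1 + k2 • a2 + k3 • g := by
      intro c hc u1 u2
      have eb : b (g - a1 - a2) c = b g c - 2 * s := by
        rw [hb.sub_left, hb.sub_left, u1, u2]; ring
      rcases prod5 hb hC hg hc with v | v | v | v | v
      · rw [v] at eb
        have := eq_neg_of_two hb hC m2 hc (by rw [eb]; ring)
        refine ⟨1, 1, -1, ?_⟩
        have e : c = -(g - a1 - a2) := by rw [this, neg_neg]
        rw [e]; simp only [neg_smul, one_zsmul]; abel
      · exfalso
        have m3 : c - g ∈ C := sub_mem hC hg hc v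
        refine htr a1 h1 a2 h2 (c - g) m3 h12 ?_ ?_
        · rw [hb.sub_right, hb.symm a1 g, u1, hg1]; ring
        · rw [hb.sub_right, hb.symm a2 g, u2, hg2]; ring
      · exfalso
        rw [v] at eb
        rcases prod5 hb hC m2 hc with w | w | w | w | w <;> rw [eb] at w <;> omega
      · have := eq_of_two hb hC hg hc v
        exact ⟨0, 0, 1, by rw [← this]; simp⟩
      · have := eq_neg_of_two hb hC hg hc v
        exact ⟨0, 0, -1, by rw [this]; simp⟩
    rcases odd_cases hb hC h1 hc ho with v1 | v1 <;> rcases odd_cases hb hC h2 hc p2 with v2 | v2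
    · exact main c hc v1 v2
    · have m3 : c + a2 ∈ C := add_mem hC h2 hc v2
      obtain ⟨k1, k2, k3, e⟩ := main (c + a2) m3 (by rw [hb.add_right, v1, h12]; ring)
        (by rw [hb.add_right, v2, n2]; ring)
      refine ⟨k1, k2 - 1, k3, ?_⟩
      have : c = (c + a2) - a2 := by abel
      rw [this, e]; simp only [sub_smul, one_zsmul]; abel
    · have m3 : c + a1 ∈ C := add_mem hC h1 hc v1
      obtain ⟨k1, k2, k3, e⟩ := main (c + a1) m3 (by rw [hb.add_right, v1, n1]; ring)
        (by rw [hb.add_right, v2, hb.symm a2 a1, h12]; ring)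
      refine ⟨k1 - 1, k2, k3, ?_⟩
      have : c = (c + a1) - a1 := by abel
      rw [this, e]; simp only [sub_smul, one_zsmul]; abel
    · obtain ⟨k1, k2, k3, e⟩ := main (-c) (neg_mem hC hc) (by rw [hb.neg_right, v1]; ring)
        (by rw [hb.neg_right, v2]; ring)
      refine ⟨-k1, -k2, -k3, ?_⟩
      have : c = -(-c) := by abel
      rw [this, e]; simp only [neg_smul]; abel

/-- no orthogonal pair -/
lemma span2 (hb : PD b) (hC : Irr b C s)
    (hpr : ∀ x ∈ C, ∀ y ∈ C, b x y ≠ 0)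
    {a g : M} (ha : a ∈ C) (hg : g ∈ C) (hag : b g a = s) {c : M} (hc : c ∈ C) :
    ∃ k1 k2 : ℤ, c = k1 • a + k2 • g := by
  have hsp := hC.pos
  have na := hC.norm a ha
  have ng := hC.norm g hg
  have main : ∀ c ∈ C, b a c = s → ∃ k1 k2 : ℤ, c = k1 • a + k2 • g := by
    intro c hc u
    rcases prod5 hb hC hg hc with v | v | v | v | v
    · exact absurd v (hpr g hg c hc)
    · exfalso
      have m3 : c - g ∈ C := sub_mem hC hg hc v
      apply hpr a ha (c - g) m3
      rw [hb.sub_right, hb.symm a g, u, hag]; ring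
    · have m1 : a - g ∈ C := sub_mem hC hg ha hag
      have := eq_of_two hb hC m1 hc (by rw [hb.sub_left, u, v]; ring)
      exact ⟨1, -1, by rw [← this]; simp only [neg_smul, one_zsmul]; abel⟩
    · have := eq_of_two hb hC hg hc v
      exact ⟨0, 1, by rw [← this]; simp⟩
    · have := eq_neg_of_two hb hC hg hc v
      exact ⟨0, -1, by rw [this]; simp⟩
  rcases prod5 hb hC ha hc with v | v | v | v | v
  · exact absurd v (hpr a ha c hc)
  · exact main c hc v
  · obtain ⟨k1, k2, e⟩ := main (-c) (neg_mem hC hc) (by rw [hb.neg_right, v]; ring)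
    refine ⟨-k1, -k2, ?_⟩
    have : c = -(-c) := by abel
    rw [this, e]; simp only [neg_smul]; abel
  · have := eq_of_two hb hC ha hc v
    exact ⟨1, 0, by rw [← this]; simp⟩
  · have := eq_neg_of_two hb hC ha hc v
    exact ⟨-1, 0, by rw [this]; simp⟩

lemma rk_mono {k l : ℕ} (h : k ≤ l) (hr : Rk C l) : Rk C k := by
  obtain ⟨c, hc, hl⟩ := hr
  exact ⟨fun i => c (Fin.castLE h i), fun i => hc _,
    hl.comp (Fin.castLE h) (Fin.castLE_injective h)⟩

/-- E_CAP -/
theorem e_cap : E_CAP := by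
  intro M _ b C s hb hC hs hcap hr
  have hr2 : Rk C 2 := rk_mono (by norm_num) hr
  by_cases htr : ∀ x ∈ C, ∀ y ∈ C, ∀ z ∈ C, b x y = 0 → b x z = 0 → b y z = 0 → False
  · by_cases hpr : ∀ x ∈ C, ∀ y ∈ C, b x y ≠ 0
    · obtain ⟨a, ha⟩ := hC.ne
      obtain ⟨g, hg, ho⟩ := ex_odd hb hC hs hr2 ha
      obtain ⟨a', ha', -, hga⟩ := sign hb hC ha hg ho
      refine not_rk_of_span (w1 := a') (w2 := g) (w3 := 0) (w4 := 0) ?_ hr
      intro c hc
      obtain ⟨k1, k2, e⟩ := span2 hb hC hpr ha' hg hga hc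
      exact ⟨k1, k2, 0, 0, by rw [e]; simp⟩
    · push Not at hpr
      obtain ⟨x, hx, y, hy, hxy⟩ := hpr
      obtain ⟨g, hg, ho⟩ := ex_odd hb hC hs hr2 hx
      have ho2 : ¬ (2 : ℤ) ∣ b g y := by
        intro h
        apply ho
        rw [hb.symm] at h ⊢
        exact (cong_iff hb hC hcap hx hy hxy hg).mpr h
      obtain ⟨a1, h1, e1, hg1⟩ := sign hb hC hx hg ho
      obtain ⟨a2, h2, e2, hg2⟩ := sign hb hC hy hg ho2
      have h12 : b a1 a2 = 0 := by
        rcases e1 with rfl | rfl <;> rcases e2 with rfl | rfl <;>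
          simp [hb.neg_left, hb.neg_right, hxy]
      refine not_rk_of_span (w1 := a1) (w2 := a2) (w3 := g) (w4 := 0) ?_ hr
      intro c hc
      obtain ⟨k1, k2, k3, e⟩ := span3 hb hC hs hcap htr h1 h2 hg h12 hg1 hg2 hc
      exact ⟨k1, k2, k3, 0, by rw [e]; simp⟩
  · push Not at htr
    obtain ⟨x, hx, y, hy, z, hz, hxy, hxz, hyz, -⟩ := htr
    obtain ⟨g, hg, ho⟩ := ex_odd hb hC hs hr2 hx
    have ho2 : ¬ (2 : ℤ) ∣ b g y := by
      intro h
      apply ho
      rw [hb.symm] at h ⊢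
      exact (cong_iff hb hC hcap hx hy hxy hg).mpr h
    have ho3 : ¬ (2 : ℤ) ∣ b g z := by
      intro h
      apply ho
      rw [hb.symm] at h ⊢
      exact (cong_iff hb hC hcap hx hz hxz hg).mpr h
    obtain ⟨a1, h1, e1, hg1⟩ := sign hb hC hx hg ho
    obtain ⟨a2, h2, e2, hg2⟩ := sign hb hC hy hg ho2
    obtain ⟨a3, h3, e3, hg3⟩ := sign hb hC hz hg ho3
    have h12 : b a1 a2 = 0 := by
      rcases e1 with rfl | rfl <;> rcases e2 with rfl | rfl <;>
        simp [hb.neg_left, hb.neg_right, hxy]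
    have h13 : b a1 a3 = 0 := by
      rcases e1 with rfl | rfl <;> rcases e3 with rfl | rfl <;>
        simp [hb.neg_left, hb.neg_right, hxz]
    have h23 : b a2 a3 = 0 := by
      rcases e2 with rfl | rfl <;> rcases e3 with rfl | rfl <;>
        simp [hb.neg_left, hb.neg_right, hyz]
    exact not_rk_of_span (fun c hc => span4 hb hC hs hcap h1 h2 h3 hg h12 h13 h23 hg1 hg2 hg3 hc)
      hr

end Pool.Agent.CON.H88

end
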